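import Mathlib

/-!
Semidefinite duality with prescribed entries.

`S` is a symmetric irreflexive relation on the finite set `V` (the prescribed entries of `M`),
`C` is positive definite, `T` symmetric. Then there are positive semidefinite `M`, `N` with
`N * M = 0`, `M = T` on `S` and `N = C` outside `S` (in particular on the diagonal).

PROOF (penalty method). Let `M_k` minimise `<C,M> + k |M - T|_S^2` over the positive semidefinite
cone (the sublevel sets of `<C,M>` are compact). The first order condition says that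
`N_k = C + 2 k (M_k - T)_S` is positive semidefinite with `<N_k, M_k> = 0`. The matrices `M_k` and
`N_k` stay in compact sets; take a limit of a subsequence.
-/

set_option autoImplicit false

open Matrix
open scoped MatrixOrder Topology

namespace Pool.Agent.Lib.MP_23961f_co.SDP

variable {V : Type*} [Fintype V]

/-- the Frobenius pairing -/
def ip (X Y : Matrix V V ℝ) : ℝ := ∑ i, ∑ j, X i j * Y i j

theorem ip_comm (X Y : Matrix V V ℝ) : ip X Y = ip Y X := by
  unfold ip
  exact Finset.sum_congr rfl fun i _ => Finset.sum_congr rfl fun j _ => mul_comm _ _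

theorem ip_add (X Y Z : Matrix V V ℝ) : ip X (Y + Z) = ip X Y + ip X Z := by
  unfold ip
  simp only [Matrix.add_apply, mul_add, Finset.sum_add_distrib]

theorem add_ip (X Y Z : Matrix V V ℝ) : ip (X + Y) Z = ip X Z + ip Y Z := by
  rw [ip_comm, ip_add, ip_comm Z X, ip_comm Z Y]

theorem ip_smul (a : ℝ) (X Y : Matrix V V ℝ) : ip X (a • Y) = a * ip X Y := by
  unfold ip
  simp only [Matrix.smul_apply, smul_eq_mul, Finset.mul_sum]
  exact Finset.sum_congr rfl fun i _ => Finset.sum_congr rfl fun j _ => by ring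

theorem smul_ip (a : ℝ) (X Y : Matrix V V ℝ) : ip (a • X) Y = a * ip X Y := by
  rw [ip_comm, ip_smul, ip_comm]

theorem ip_self_nonneg (X : Matrix V V ℝ) : 0 ≤ ip X X :=
  Finset.sum_nonneg fun _ _ => Finset.sum_nonneg fun _ _ => mul_self_nonneg _

theorem sq_le_ip_self (X : Matrix V V ℝ) (i j : V) : X i j * X i j ≤ ip X X := by
  unfold ip
  calc X i j * X i j ≤ ∑ j, X i j * X i j :=
        Finset.single_le_sum (f := fun j => X i j * X i j) (fun _ _ => mul_self_nonneg _)
          (Finset.mem_univ j)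
    _ ≤ ∑ i, ∑ j, X i j * X i j :=
        Finset.single_le_sum (f := fun i => ∑ j, X i j * X i j)
          (fun _ _ => Finset.sum_nonneg fun _ _ => mul_self_nonneg _) (Finset.mem_univ i)

theorem ip_vecMulVec (X : Matrix V V ℝ) (x : V → ℝ) :
    ip X (vecMulVec x x) = x ⬝ᵥ (X *ᵥ x) := by
  unfold ip
  simp only [vecMulVec_apply, dotProduct, mulVec, Finset.mul_sum]
  exact Finset.sum_congr rfl fun i _ => Finset.sum_congr rfl fun j _ => by ring

theorem exists_factor {M : Matrix V V ℝ} (h : M.PosSemidef) :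
    ∃ R : Matrix V V ℝ, M = Rᵀ * R := by
  classical
  obtain ⟨R, hR⟩ := CStarAlgebra.nonneg_iff_eq_star_mul_self.mp h.nonneg
  exact ⟨R, by rw [hR, star_eq_conjTranspose, conjTranspose_eq_transpose_of_trivial]⟩

theorem ip_eq_trace (X Y : Matrix V V ℝ) : ip X Y = (Xᵀ * Y).trace := by
  unfold ip
  simp only [trace, diag_apply, mul_apply, transpose_apply]
  exact Finset.sum_comm

theorem ip_factor (A B : Matrix V V ℝ) :
    ip (Aᵀ * A) (Bᵀ * B) = ip (A * Bᵀ) (A * Bᵀ) := by
  rw [ip_eq_trace, ip_eq_trace, transpose_mul, transpose_mul, transpose_transpose,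
    transpose_transpose, ← Matrix.mul_assoc, Matrix.trace_mul_comm]
  simp only [Matrix.mul_assoc]

theorem ip_nonneg {M N : Matrix V V ℝ} (hN : N.PosSemidef) (hM : M.PosSemidef) : 0 ≤ ip N M := by
  obtain ⟨A, rfl⟩ := exists_factor hN
  obtain ⟨B, rfl⟩ := exists_factor hM
  rw [ip_factor]
  exact ip_self_nonneg _

theorem mul_eq_zero_of_ip {M N : Matrix V V ℝ} (hN : N.PosSemidef) (hM : M.PosSemidef)
    (h : ip N M = 0) : N * M = 0 := by
  obtain ⟨A, rfl⟩ := exists_factor hN
  obtain ⟨B, rfl⟩ := exists_factor hM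
  rw [ip_factor] at h
  have h0 : A * Bᵀ = 0 := by
    ext i j
    have := sq_le_ip_self (A * Bᵀ) i j
    rw [h] at this
    have h2 := mul_self_nonneg ((A * Bᵀ) i j)
    simpa using le_antisymm this h2
  rw [Matrix.mul_assoc, ← Matrix.mul_assoc A, h0, Matrix.zero_mul, Matrix.mul_zero]

theorem abs_entry_le {M : Matrix V V ℝ} (h : M.PosSemidef) (i j : V) :
    |M i j| ≤ (M i i + M j j) / 2 := by
  obtain ⟨R, rfl⟩ := exists_factor h
  simp only [mul_apply, transpose_apply]
  calc |∑ k, R k i * R k j| ≤ ∑ k, |R k i * R k j| := Finset.abs_sum_le_sum_abs _ _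
    _ ≤ ∑ k, (R k i * R k i + R k j * R k j) / 2 := by
        refine Finset.sum_le_sum fun k _ => ?_
        rw [abs_le]
        constructor <;> nlinarith [mul_self_nonneg (R k i + R k j), mul_self_nonneg (R k i - R k j)]
    _ = (∑ k, R k i * R k i + ∑ k, R k j * R k j) / 2 := by
        rw [← Finset.sum_add_distrib, Finset.sum_div]

/-- coercivity of a positive definite form on the cone -/
theorem exists_coercive {C : Matrix V V ℝ} (hC : C.PosDef) :
    ∃ c : ℝ, 0 < c ∧ ∀ M : Matrix V V ℝ, M.PosSemidef → ∀ i, c * M i i ≤ ip C M := by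
  classical
  -- factor C = R^T R, R invertible with left inverse Q
  obtain ⟨R, hR⟩ := exists_factor hC.posSemidef
  obtain ⟨U, hU⟩ := hC.isUnit
  -- Q * R = 1
  set Q : Matrix V V ℝ := (↑U⁻¹ : Matrix V V ℝ) * Rᵀ with hQ
  have hQR : Q * R = 1 := by
    rw [hQ, Matrix.mul_assoc, ← hR, ← hU]
    exact U.inv_mul
  refine ⟨1 / (1 + ip Q Q), by
    have := ip_self_nonneg Q
    positivity, fun M hM i => ?_⟩
  obtain ⟨B, rfl⟩ := exists_factor hM
  have h1 : ip C (Bᵀ * B) = ip (R * Bᵀ) (R * Bᵀ) := by rw [hR, ip_factor]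
  -- B^T = Q * (R * B^T)
  have h2 : Bᵀ = Q * (R * Bᵀ) := by rw [← Matrix.mul_assoc, hQR, Matrix.one_mul]
  have h3 : (Bᵀ * B) i i = ∑ k, Bᵀ i k * Bᵀ i k := by
    simp only [mul_apply, transpose_apply]
  rw [h1, h3]
  set Y := R * Bᵀ with hY
  have h4 : ∀ k, Bᵀ i k * Bᵀ i k ≤ (∑ l, Q i l * Q i l) * (∑ l, Y l k * Y l k) := by
    intro k
    rw [h2, mul_apply]
    have := Finset.sum_mul_sq_le_sq_mul_sq Finset.univ (fun l => Q i l) (fun l => Y l k)
    simp only [pow_two] at this
    exact this
  have h5 : (∑ k, Bᵀ i k * Bᵀ i k) ≤ (∑ l, Q i l * Q i l) * ip Y Y := by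
    calc (∑ k, Bᵀ i k * Bᵀ i k) ≤ ∑ k, (∑ l, Q i l * Q i l) * (∑ l, Y l k * Y l k) :=
          Finset.sum_le_sum fun k _ => h4 k
      _ = (∑ l, Q i l * Q i l) * ip Y Y := by
          rw [← Finset.mul_sum]
          congr 1
          unfold ip
          exact Finset.sum_comm
  have h6 : (∑ l, Q i l * Q i l) ≤ ip Q Q := by
    unfold ip
    exact Finset.single_le_sum (f := fun i => ∑ j, Q i j * Q i j)
          (fun _ _ => Finset.sum_nonneg fun _ _ => mul_self_nonneg _) (Finset.mem_univ i)
  have h7 := ip_self_nonneg Y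
  have h8 := ip_self_nonneg Q
  rw [div_mul_eq_mul_div, one_mul, div_le_iff₀ (by positivity)]
  nlinarith [mul_le_mul_of_nonneg_right h6 h7]

/-- a large multiple of the identity makes a symmetric matrix positive semidefinite -/
theorem exists_add_smul_one [DecidableEq V] {X : Matrix V V ℝ} (hX : X.IsSymm) :
    ∃ t : ℝ, (X + t • (1 : Matrix V V ℝ)).PosSemidef := by
  refine ⟨∑ i, ∑ j, |X i j|, ?_⟩
  refine PosSemidef.of_dotProduct_mulVec_nonneg ?_ fun x => ?_
  · rw [IsHermitian, conjTranspose_eq_transpose_of_trivial, transpose_add, hX.eq, transpose_smul,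
      transpose_one]
  · rw [star_trivial, add_mulVec, dotProduct_add, smul_mulVec, one_mulVec, dotProduct_smul,
      smul_eq_mul]
    have h1 : x ⬝ᵥ (X *ᵥ x) = ∑ i, ∑ j, X i j * (x i * x j) := by
      simp only [dotProduct, mulVec, Finset.mul_sum]
      exact Finset.sum_congr rfl fun i _ => Finset.sum_congr rfl fun j _ => by ring
    have h2 : ∀ i j, -(|X i j| * (x ⬝ᵥ x)) ≤ X i j * (x i * x j) := by
      intro i j
      have hi : x i * x i ≤ x ⬝ᵥ x :=
        Finset.single_le_sum (f := fun i => x i * x i) (fun _ _ => mul_self_nonneg _)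
          (Finset.mem_univ i)
      have hj : x j * x j ≤ x ⬝ᵥ x :=
        Finset.single_le_sum (f := fun i => x i * x i) (fun _ _ => mul_self_nonneg _)
          (Finset.mem_univ j)
      have h3 : |x i * x j| ≤ x ⬝ᵥ x := by
        rw [abs_le]
        constructor <;> nlinarith [mul_self_nonneg (x i + x j), mul_self_nonneg (x i - x j)]
      have h4 : |X i j * (x i * x j)| ≤ |X i j| * (x ⬝ᵥ x) := by
        rw [abs_mul]
        exact mul_le_mul_of_nonneg_left h3 (abs_nonneg _)
      exact (abs_le.1 h4).1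
    have h5 : -((∑ i, ∑ j, |X i j|) * (x ⬝ᵥ x)) ≤ ∑ i, ∑ j, X i j * (x i * x j) := by
      rw [Finset.sum_mul, ← Finset.sum_neg_distrib]
      refine Finset.sum_le_sum fun i _ => ?_
      rw [Finset.sum_mul, ← Finset.sum_neg_distrib]
      exact Finset.sum_le_sum fun j _ => h2 i j
    rw [h1]
    linarith

theorem isClosed_posSemidef : IsClosed {M : Matrix V V ℝ | M.PosSemidef} := by
  have h : {M : Matrix V V ℝ | M.PosSemidef} =
      (⋂ (i : V) (j : V), {M : Matrix V V ℝ | M i j = M j i}) ∩
        ⋂ x : V → ℝ, {M : Matrix V V ℝ | 0 ≤ ∑ i, x i * ∑ j, M i j * x j} := by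
    ext M
    simp only [Set.mem_ofPred_eq, Set.mem_inter_iff, Set.mem_iInter]
    rw [posSemidef_iff_dotProduct_mulVec]
    constructor
    · rintro ⟨h1, h2⟩
      refine ⟨fun i j => ?_, fun x => ?_⟩
      · have := h1.apply i j
        simpa using this.symm
      · simpa [dotProduct, mulVec] using h2 x
    · rintro ⟨h1, h2⟩
      refine ⟨?_, fun x => ?_⟩
      · ext i j
        simpa using h1 j i
      · simpa [dotProduct, mulVec] using h2 x
  rw [h]
  refine IsClosed.inter ?_ ?_
  · refine isClosed_iInter fun i => isClosed_iInter fun j => isClosed_eq ?_ ?_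
    · exact continuous_id.matrix_elem i j
    · exact continuous_id.matrix_elem j i
  · refine isClosed_iInter fun x => isClosed_le continuous_const ?_
    refine continuous_finsetSum _ fun i _ => continuous_const.mul ?_
    exact continuous_finsetSum _ fun j _ => (continuous_id.matrix_elem i j).mul continuous_const

omit [Fintype V] in
theorem isCompact_of_bounded [Finite V] {K : Set (Matrix V V ℝ)} (hK : IsClosed K) (c : ℝ)
    (h : ∀ M ∈ K, ∀ i j, |M i j| ≤ c) : IsCompact K := by
  have h1 : IsCompact (Set.univ.pi fun _ : V => Set.univ.pi fun _ : V => Set.Icc (-c) c) :=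
    isCompact_univ_pi fun _ => isCompact_univ_pi fun _ => isCompact_Icc
  refine IsCompact.of_isClosed_subset (s := (Set.univ.pi fun _ : V => Set.univ.pi fun _ : V =>
    Set.Icc (-c) c : Set (V → V → ℝ))) h1 hK ?_
  intro M hM
  simp only [Set.mem_pi, Set.mem_univ, forall_const, Set.mem_Icc]
  exact fun i j => abs_le.1 (h M hM i j)

theorem continuous_ip_left (X : Matrix V V ℝ) : Continuous fun M : Matrix V V ℝ => ip X M := by
  unfold ip
  exact continuous_finsetSum _ fun i _ => continuous_finsetSum _ fun j _ =>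
    continuous_const.mul (continuous_id.matrix_elem i j)

theorem continuous_ip : Continuous fun p : Matrix V V ℝ × Matrix V V ℝ => ip p.1 p.2 := by
  unfold ip
  exact continuous_finsetSum _ fun i _ => continuous_finsetSum _ fun j _ =>
    (continuous_fst.matrix_elem i j).mul (continuous_snd.matrix_elem i j)

theorem tendsto_ip {f g : ℕ → Matrix V V ℝ} {A B : Matrix V V ℝ}
    (hf : Filter.Tendsto f Filter.atTop (𝓝 A)) (hg : Filter.Tendsto g Filter.atTop (𝓝 B)) :
    Filter.Tendsto (fun k => ip (f k) (g k)) Filter.atTop (𝓝 (ip A B)) := by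
  have he : ∀ {h : ℕ → Matrix V V ℝ} {X : Matrix V V ℝ}, Filter.Tendsto h Filter.atTop (𝓝 X) →
      ∀ i j, Filter.Tendsto (fun k => h k i j) Filter.atTop (𝓝 (X i j)) := by
    intro h X hX i j
    exact ((continuous_id.matrix_elem i j).tendsto X).comp hX
  unfold ip
  exact tendsto_finsetSum _ fun i _ => tendsto_finsetSum _ fun j _ => (he hf i j).mul (he hg i j)

open Classical in
/-- the entries in `S` -/
noncomputable def pr (S : V → V → Prop) (X : Matrix V V ℝ) : Matrix V V ℝ :=
  fun i j => if S i j then X i j else 0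

omit [Fintype V] in
theorem pr_apply_of {S : V → V → Prop} {X : Matrix V V ℝ} {i j : V} (h : S i j) :
    pr S X i j = X i j := by
  classical
  exact if_pos h

omit [Fintype V] in
theorem pr_apply_of_not {S : V → V → Prop} {X : Matrix V V ℝ} {i j : V} (h : ¬ S i j) :
    pr S X i j = 0 := by
  classical
  exact if_neg h

omit [Fintype V] in
theorem pr_add (S : V → V → Prop) (X Y : Matrix V V ℝ) : pr S (X + Y) = pr S X + pr S Y := by
  ext i j
  by_cases h : S i j
  · rw [pr_apply_of h, Matrix.add_apply, Matrix.add_apply, pr_apply_of h, pr_apply_of h]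
  · rw [pr_apply_of_not h, Matrix.add_apply, pr_apply_of_not h, pr_apply_of_not h, add_zero]

omit [Fintype V] in
theorem pr_smul (S : V → V → Prop) (a : ℝ) (X : Matrix V V ℝ) : pr S (a • X) = a • pr S X := by
  ext i j
  by_cases h : S i j
  · rw [pr_apply_of h, Matrix.smul_apply, Matrix.smul_apply, pr_apply_of h]
  · rw [pr_apply_of_not h, Matrix.smul_apply, pr_apply_of_not h, smul_zero]

theorem ip_pr_pr (S : V → V → Prop) (X Y : Matrix V V ℝ) : ip (pr S X) (pr S Y) = ip (pr S X) Y := by
  unfold ip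
  refine Finset.sum_congr rfl fun i _ => Finset.sum_congr rfl fun j _ => ?_
  by_cases h : S i j
  · rw [pr_apply_of h, pr_apply_of h]
  · rw [pr_apply_of_not h, zero_mul, zero_mul]

omit [Fintype V] in
theorem pr_symm {S : V → V → Prop} (hS : ∀ i j, S i j → S j i) {X : Matrix V V ℝ}
    (hX : X.IsSymm) : (pr S X).IsSymm := by
  ext i j
  rw [transpose_apply]
  by_cases h : S i j
  · rw [pr_apply_of h, pr_apply_of (hS _ _ h), hX.apply]
  · rw [pr_apply_of_not h, pr_apply_of_not fun h' => h (hS _ _ h')]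

omit [Fintype V] in
theorem isSymm_of_posSemidef {M : Matrix V V ℝ} (h : M.PosSemidef) : M.IsSymm := by
  have := h.1
  rw [IsHermitian, conjTranspose_eq_transpose_of_trivial] at this
  exact this

/-- first order condition at a minimum of the penalised functional -/
theorem first_order {S : V → V → Prop} (hS : ∀ i j, S i j → S j i) {C T : Matrix V V ℝ}
    (hC : C.IsSymm) (hT : T.IsSymm) (k : ℝ) (hk : 0 ≤ k) {M : Matrix V V ℝ} (hM : M.PosSemidef)
    (hmin : ∀ M' : Matrix V V ℝ, M'.PosSemidef →
      ip C M + k * ip (pr S (M - T)) (pr S (M - T)) ≤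
        ip C M' + k * ip (pr S (M' - T)) (pr S (M' - T))) :
    (C + (2 * k) • pr S (M - T)).PosSemidef ∧ ip (C + (2 * k) • pr S (M - T)) M = 0 := by
  set N := C + (2 * k) • pr S (M - T) with hN
  have key : ∀ M' : Matrix V V ℝ, M'.PosSemidef → 0 ≤ ip N (M' - M) := by
    intro M' hM'
    set Y := M' - M with hY
    set h := k * ip (pr S Y) (pr S Y) with hh
    have hh0 : 0 ≤ h := mul_nonneg hk (ip_self_nonneg _)
    have h1 : ∀ s : ℝ, 0 ≤ s → s ≤ 1 → 0 ≤ s * ip N Y + s ^ 2 * h := by
      intro s hs0 hs1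
      have h2 : (M + s • Y).PosSemidef := by
        have h3 : M + s • Y = (1 - s) • M + s • M' := by
          rw [hY, smul_sub, sub_smul, one_smul]
          abel
        rw [h3]
        exact (hM.smul (by linarith)).add (hM'.smul hs0)
      have h4 := hmin _ h2
      have h5 : M + s • Y - T = (M - T) + s • Y := by abel
      rw [h5, pr_add, pr_smul, ip_add C, ip_smul, add_ip, ip_add, ip_add, smul_ip, ip_smul,
        smul_ip, ip_smul] at h4
      have h6 : ip N Y = ip C Y + 2 * k * ip (pr S (M - T)) (pr S Y) := by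
        rw [hN, add_ip, smul_ip, ip_pr_pr]
      have h7 : ip (pr S Y) (pr S (M - T)) = ip (pr S (M - T)) (pr S Y) := ip_comm _ _
      rw [h7] at h4
      rw [h6, hh]
      nlinarith [h4]
    by_contra hneg
    push Not at hneg
    -- choose s small
    have hg : ip N Y < 0 := hneg
    have h8 : 0 < h + 1 - ip N Y := by linarith
    set s := -ip N Y / (h + 1 - ip N Y) with hs
    have hs0 : 0 < s := div_pos (by linarith) h8
    have hs1 : s ≤ 1 := by
      rw [hs, div_le_one h8]
      linarith
    have h9 := h1 s hs0.le hs1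
    have h10 : 0 ≤ ip N Y + s * h := by
      have : s * ip N Y + s ^ 2 * h = s * (ip N Y + s * h) := by ring
      rw [this] at h9
      exact nonneg_of_mul_nonneg_right h9 hs0
    have h11 : s * (h + 1 - ip N Y) = -ip N Y := by
      rw [hs, div_mul_cancel₀ _ h8.ne']
    nlinarith
  have h0 : ip N M ≤ 0 := by
    have := key 0 PosSemidef.zero
    rw [zero_sub, ← neg_one_smul ℝ M, ip_smul] at this
    linarith
  have h1 : 0 ≤ ip N M := by
    have := key ((2 : ℝ) • M) (hM.smul (by norm_num))
    have h2 : (2 : ℝ) • M - M = M := by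
      rw [two_smul]
      abel
    rwa [h2] at this
  have h2 : ip N M = 0 := le_antisymm h0 h1
  refine ⟨?_, h2⟩
  have hNs : N.IsSymm := by
    rw [hN]
    refine IsSymm.add hC ?_
    exact (pr_symm hS ((isSymm_of_posSemidef hM).sub hT)).smul _
  refine PosSemidef.of_dotProduct_mulVec_nonneg ?_ fun x => ?_
  · rw [IsHermitian, conjTranspose_eq_transpose_of_trivial]
    exact hNs
  · rw [star_trivial, ← ip_vecMulVec]
    have h3 : (vecMulVec x x).PosSemidef := by
      simpa using posSemidef_vecMulVec_self_star x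
    have h4 := key (M + vecMulVec x x) (hM.add h3)
    rwa [add_sub_cancel_left] at h4

/-- SDP duality with prescribed entries. -/
theorem exists_dual_pair {S : V → V → Prop} (hS : ∀ i j, S i j → S j i) (hSi : ∀ i, ¬ S i i)
    {C T : Matrix V V ℝ} (hC : C.PosDef) (hT : T.IsSymm) :
    ∃ M N : Matrix V V ℝ, M.PosSemidef ∧ N.PosSemidef ∧ N * M = 0 ∧
      (∀ i j, S i j → M i j = T i j) ∧ (∀ i j, ¬ S i j → N i j = C i j) := by
  classical
  have hCs : C.IsSymm := isSymm_of_posSemidef hC.posSemidef
  -- a feasible point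
  obtain ⟨t, ht⟩ := exists_add_smul_one (pr_symm hS hT)
  set M0 : Matrix V V ℝ := pr S T + t • (1 : Matrix V V ℝ) with hM0
  have hM0S : ∀ i j, S i j → M0 i j = T i j := by
    intro i j h
    have hij : i ≠ j := fun e => hSi i (by rw [← e] at h; exact h)
    rw [hM0, Matrix.add_apply, Matrix.smul_apply, one_apply_ne hij, smul_zero, add_zero,
      pr_apply_of h]
  have hpr0 : pr S (M0 - T) = 0 := by
    ext i j
    by_cases h : S i j
    · rw [pr_apply_of h, Matrix.sub_apply, hM0S i j h, sub_self, Matrix.zero_apply]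
    · rw [pr_apply_of_not h, Matrix.zero_apply]
  set c0 := ip C M0 with hc0
  obtain ⟨c, hc, hcoer⟩ := exists_coercive hC
  -- the compact set of M's
  set KM : Set (Matrix V V ℝ) := {M | M.PosSemidef ∧ ip C M ≤ c0} with hKM
  have hKMc : IsCompact KM := by
    refine isCompact_of_bounded (c := c0 / c) ?_ ?_
    · exact isClosed_posSemidef.inter (isClosed_le (continuous_ip_left C) continuous_const)
    · rintro M ⟨h1, h2⟩ i j
      have h3 := abs_entry_le h1 i j
      have h4 : ∀ i, M i i ≤ c0 / c := by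
        intro i
        rw [le_div_iff₀ hc]
        have := hcoer M h1 i
        nlinarith
      linarith [h4 i, h4 j]
  -- minimisers
  have hmin : ∀ k : ℕ, ∃ M ∈ KM, ∀ M' : Matrix V V ℝ, M'.PosSemidef →
      ip C M + k * ip (pr S (M - T)) (pr S (M - T)) ≤
        ip C M' + k * ip (pr S (M' - T)) (pr S (M' - T)) := by
    intro k
    have hcont : Continuous fun M : Matrix V V ℝ =>
        ip C M + k * ip (pr S (M - T)) (pr S (M - T)) := by
      have h1 : Continuous fun M : Matrix V V ℝ => pr S (M - T) := by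
        refine continuous_matrix fun i j => ?_
        by_cases h : S i j
        · simp only [pr_apply_of h, Matrix.sub_apply]
          exact (continuous_id.matrix_elem i j).sub continuous_const
        · simp only [pr_apply_of_not h]
          exact continuous_const
      exact (continuous_ip_left C).add (continuous_const.mul (continuous_ip.comp (h1.prodMk h1)))
    obtain ⟨M, hM, hM2⟩ := hKMc.exists_isMinOn ⟨M0, ht, le_refl _⟩ hcont.continuousOn
    refine ⟨M, hM, fun M' hM' => ?_⟩
    by_cases h : ip C M' ≤ c0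
    · exact hM2 (show M' ∈ KM from ⟨hM', h⟩)
    · have h1 := hM2 (show M0 ∈ KM from ⟨ht, le_refl _⟩)
      simp only [Set.mem_ofPred_eq] at h1
      rw [hpr0] at h1
      have h2 : ip (0 : Matrix V V ℝ) 0 = 0 := by simp [ip]
      rw [h2, mul_zero, add_zero] at h1
      have h3 : 0 ≤ (k : ℝ) * ip (pr S (M' - T)) (pr S (M' - T)) :=
        mul_nonneg (Nat.cast_nonneg _) (ip_self_nonneg _)
      push Not at h
      linarith
  choose Mk hMk hMk2 using hmin
  obtain ⟨Nk, hNk⟩ : ∃ Nk : ℕ → Matrix V V ℝ, ∀ k : ℕ,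
      Nk k = C + (2 * (k : ℝ)) • pr S (Mk k - T) := ⟨_, fun _ => rfl⟩
  have hfo : ∀ k, (Nk k).PosSemidef ∧ ip (Nk k) (Mk k) = 0 := by
    intro k
    rw [hNk k]
    exact first_order hS hCs hT k (Nat.cast_nonneg _) (hMk k).1 (hMk2 k)
  have hNkC : ∀ k i j, ¬ S i j → Nk k i j = C i j := by
    intro k i j h
    rw [hNk k, Matrix.add_apply, Matrix.smul_apply, pr_apply_of_not h, smul_zero, add_zero]
  set KN : Set (Matrix V V ℝ) := {N | N.PosSemidef ∧ ∀ i j, ¬ S i j → N i j = C i j} with hKN
  have hKNc : IsCompact KN := by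
    refine isCompact_of_bounded (c := ∑ i, |C i i|) ?_ ?_
    · have h1 : {N : Matrix V V ℝ | ∀ i j, ¬ S i j → N i j = C i j} =
          ⋂ (i : V) (j : V) (_ : ¬ S i j), {N : Matrix V V ℝ | N i j = C i j} := by
        ext N
        simp
      have h2 : IsClosed {N : Matrix V V ℝ | ∀ i j, ¬ S i j → N i j = C i j} := by
        rw [h1]
        exact isClosed_iInter fun i => isClosed_iInter fun j => isClosed_iInter fun _ =>
          isClosed_eq (continuous_id.matrix_elem i j) continuous_const
      exact isClosed_posSemidef.inter h2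
    · rintro N ⟨h1, h2⟩ i j
      have h3 := abs_entry_le h1 i j
      have h4 : ∀ i, N i i ≤ ∑ i, |C i i| := by
        intro i
        rw [h2 i i (hSi i)]
        exact (le_abs_self _).trans
          (Finset.single_le_sum (f := fun i => |C i i|) (fun _ _ => abs_nonneg _)
            (Finset.mem_univ i))
      linarith [h4 i, h4 j]
  have : FirstCountableTopology (Matrix V V ℝ) :=
    inferInstanceAs (FirstCountableTopology (V → V → ℝ))
  obtain ⟨p, hp, φ, hφ, hlim⟩ := (hKMc.prod hKNc).tendsto_subseq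
    (x := fun k => (Mk k, Nk k)) fun k => ⟨hMk k, (hfo k).1, hNkC k⟩
  have hlimM : Filter.Tendsto (fun k => Mk (φ k)) Filter.atTop (𝓝 p.1) :=
    (continuous_fst.tendsto p).comp hlim
  have hlimN : Filter.Tendsto (fun k => Nk (φ k)) Filter.atTop (𝓝 p.2) :=
    (continuous_snd.tendsto p).comp hlim
  refine ⟨p.1, p.2, hp.1.1, hp.2.1, ?_, ?_, hp.2.2⟩
  · apply mul_eq_zero_of_ip hp.2.1 hp.1.1
    have h1 : Filter.Tendsto (fun k => ip (Nk (φ k)) (Mk (φ k))) Filter.atTop
        (𝓝 (ip p.2 p.1)) := tendsto_ip hlimN hlimM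
    have h2 : (fun k => ip (Nk (φ k)) (Mk (φ k))) = fun _ => 0 := by
      funext k
      exact (hfo (φ k)).2
    rw [h2] at h1
    exact tendsto_nhds_unique h1 tendsto_const_nhds
  · intro i j h
    -- k * (M_ij - T_ij)^2 ≤ c0
    have hb : ∀ k : ℕ, (k : ℝ) * ((Mk k i j - T i j) * (Mk k i j - T i j)) ≤ c0 := by
      intro k
      have h1 := hMk2 k M0 ht
      rw [hpr0] at h1
      have h2 : ip (0 : Matrix V V ℝ) 0 = 0 := by simp [ip]
      rw [h2, mul_zero, add_zero] at h1
      have h3 : 0 ≤ ip C (Mk k) := ip_nonneg hC.posSemidef (hMk k).1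
      have h4 := sq_le_ip_self (pr S (Mk k - T)) i j
      rw [pr_apply_of h, Matrix.sub_apply] at h4
      have h5 := mul_le_mul_of_nonneg_left h4 (Nat.cast_nonneg (α := ℝ) k)
      linarith
    have h1 : Filter.Tendsto (fun k => (Mk (φ k) i j - T i j) * (Mk (φ k) i j - T i j))
        Filter.atTop (𝓝 ((p.1 i j - T i j) * (p.1 i j - T i j))) := by
      have hc1 : Continuous fun q : Matrix V V ℝ => (q i j - T i j) * (q i j - T i j) :=
        ((continuous_id.matrix_elem i j).sub continuous_const).mul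
          ((continuous_id.matrix_elem i j).sub continuous_const)
      exact (hc1.tendsto p.1).comp hlimM
    have h2 : Filter.Tendsto (fun k => (Mk (φ k) i j - T i j) * (Mk (φ k) i j - T i j))
        Filter.atTop (𝓝 0) := by
      have h3 : Filter.Tendsto (fun k : ℕ => c0 / (φ k : ℝ)) Filter.atTop (𝓝 0) :=
        (tendsto_const_nhds.div_atTop tendsto_natCast_atTop_atTop).comp hφ.tendsto_atTop
      refine squeeze_zero' (Filter.Eventually.of_forall fun k => mul_self_nonneg _) ?_ h3
      have h4 : ∀ᶠ k in Filter.atTop, 0 < φ k :=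
        hφ.tendsto_atTop.eventually (Filter.eventually_gt_atTop 0)
      filter_upwards [h4] with k hk
      rw [le_div_iff₀ (by exact_mod_cast hk)]
      have := hb (φ k)
      linarith
    have h3 := tendsto_nhds_unique h1 h2
    have h4 : p.1 i j - T i j = 0 := by
      rcases mul_eq_zero.1 h3 with h | h <;> exact h
    linarith

theorem rank_add_le (A B : Matrix V V ℝ) : (A + B).rank ≤ A.rank + B.rank := by
  classical
  unfold Matrix.rank
  have h : (A + B).mulVecLin.range ≤ A.mulVecLin.range ⊔ B.mulVecLin.range := by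
    rintro x ⟨y, rfl⟩
    rw [Matrix.mulVecLin_add, LinearMap.add_apply]
    exact Submodule.add_mem_sup ⟨y, rfl⟩ ⟨y, rfl⟩
  exact (Submodule.finrank_mono h).trans (Submodule.finrank_add_le_finrank_add_finrank _ _)

/-- The pair of representations: data `W` of rank `k`, `U` of rank `l`, diagonal `D`. -/
theorem exists_pair {S : V → V → Prop} (hS : ∀ i j, S i j → S j i) (hSi : ∀ i, ¬ S i i)
    {κ μ : Type*} [Fintype κ] [Fintype μ] [DecidableEq V] (W : Matrix V κ ℝ) (U : Matrix V μ ℝ)
    (D : V → ℝ) (hD : (diagonal D - U * Uᵀ).PosDef) :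
    ∃ A B : Matrix V V ℝ, (A - W * Wᵀ).PosSemidef ∧ (B - U * Uᵀ).PosSemidef ∧
      (B - U * Uᵀ) * (A - W * Wᵀ) = 0 ∧ A.PosSemidef ∧ B.PosSemidef ∧
      (∀ i j, S i j → A i j = 0) ∧ (∀ i j, i ≠ j → ¬ S i j → B i j = 0) ∧ (∀ i, B i i = D i) ∧
      A.rank + B.rank ≤ Fintype.card V + Fintype.card κ + Fintype.card μ := by
  have hT : (-(W * Wᵀ)).IsSymm := by
    rw [IsSymm, transpose_neg, transpose_mul, transpose_transpose]
  obtain ⟨M, N, hM, hN, hNM, hMS, hNC⟩ := exists_dual_pair hS hSi hD hT
  have hWW : (W * Wᵀ).PosSemidef := by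
    simpa using posSemidef_self_mul_conjTranspose W
  have hUU : (U * Uᵀ).PosSemidef := by
    simpa using posSemidef_self_mul_conjTranspose U
  refine ⟨M + W * Wᵀ, N + U * Uᵀ, ?_, ?_, ?_, hM.add hWW, hN.add hUU, ?_, ?_, ?_, ?_⟩
  · rwa [add_sub_cancel_right]
  · rwa [add_sub_cancel_right]
  · rwa [add_sub_cancel_right, add_sub_cancel_right]
  · intro i j h
    rw [Matrix.add_apply, hMS i j h, Matrix.neg_apply, neg_add_cancel]
  · intro i j hij h
    rw [Matrix.add_apply, hNC i j h, Matrix.sub_apply, diagonal_apply_ne _ hij]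
    ring
  · intro i
    rw [Matrix.add_apply, hNC i i (hSi i), Matrix.sub_apply, diagonal_apply_eq]
    ring
  · have h1 := rank_add_rank_le_card_of_mul_eq_zero hNM
    have h2 := rank_add_le M (W * Wᵀ)
    have h3 := rank_add_le N (U * Uᵀ)
    have h4 : (W * Wᵀ).rank ≤ Fintype.card κ :=
      (rank_mul_le_left _ _).trans (rank_le_card_width _)
    have h5 : (U * Uᵀ).rank ≤ Fintype.card μ :=
      (rank_mul_le_left _ _).trans (rank_le_card_width _)
    omega

end Pool.Agent.Lib.MP_23961f_co.SDP
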