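import Pool.Agent.Lib.MP_23961f_co.K.Cover

/-!
From a positive semidefinite matrix with zeros at the non-edges and without stress on the non-edges
to a positive semidefinite matrix with exact pattern, the strong Arnold property and rank one more.

Main theorems `nul_of_psd`, `exists_nul_sum`.
-/

set_option autoImplicit false

open scoped InnerProductSpace Matrix MatrixOrder

namespace Pool.Agent.Lib.MP_23961f_co.SDP

open Pool.Agent.Lib.MP_23961f_co.K

section

variable {V : Type*} [Fintype V]

/-- No nonzero symmetric matrix supported on `S` is annihilated by `A`. -/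
def RSap (S : V → V → Prop) (A : Matrix V V ℝ) : Prop :=
  ∀ X : Matrix V V ℝ, X.IsSymm → (∀ i j, ¬ S i j → X i j = 0) → A * X = 0 → X = 0

/-- the columns of a matrix as vectors of a euclidean space -/
noncomputable def colv (C : Matrix V V ℝ) (v : V) : EuclideanSpace ℝ V :=
  (WithLp.linearEquiv 2 ℝ (V → ℝ)).symm (C.col v)

omit [Fintype V] in
theorem colv_apply (C : Matrix V V ℝ) (v k : V) : colv C v k = C k v := rfl

theorem inner_colv (C : Matrix V V ℝ) (v w : V) :
    ⟪colv C v, colv C w⟫_ℝ = (Cᵀ * C) v w := by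
  rw [PiLp.inner_apply, Matrix.mul_apply]
  refine Finset.sum_congr rfl fun k _ => ?_
  rw [colv_apply, colv_apply, Matrix.transpose_apply]
  simp [mul_comm]

theorem finrank_span_colv (C : Matrix V V ℝ) :
    Module.finrank ℝ (Submodule.span ℝ (Set.range (colv C))) = C.rank := by
  rw [Matrix.rank_eq_finrank_span_cols]
  have h1 : Set.range (colv C) =
      (WithLp.linearEquiv 2 ℝ (V → ℝ)).symm '' (Set.range C.col) := by
    rw [← Set.range_comp]
    rfl
  rw [h1, ← LinearEquiv.coe_coe, ← Submodule.map_span]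
  exact LinearEquiv.finrank_map_eq _ _

/-- The Gram representation. -/
theorem rep_of_psd {S : V → V → Prop} {A : Matrix V V ℝ} (hA : A.PosSemidef)
    (hS : ∀ i j, S i j → A i j = 0) (hR : RSap S A) : Rep S A.rank := by
  classical
  obtain ⟨C, hC⟩ := CStarAlgebra.nonneg_iff_eq_star_mul_self.1 hA.nonneg
  rw [Matrix.star_eq_conjTranspose, Matrix.conjTranspose_eq_transpose_of_trivial] at hC
  have hrank : Module.finrank ℝ (Submodule.span ℝ (Set.range (colv C))) = A.rank := by
    rw [finrank_span_colv, hC, Matrix.rank_transpose_mul_self]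
  refine rep_of hrank (u := fun v => (⟨colv C v, Submodule.subset_span ⟨v, rfl⟩⟩ :
    Submodule.span ℝ (Set.range (colv C)))) ?_ ?_
  · intro v w hvw
    show ⟪colv C v, colv C w⟫_ℝ = 0
    rw [inner_colv, ← hC]
    exact hS v w hvw
  · intro X h1 h2 h3
    have h4 : C * (Matrix.of X) = 0 := by
      ext k v
      have h5 := congrArg (fun z : Submodule.span ℝ (Set.range (colv C)) =>
        (z : EuclideanSpace ℝ V) k) (h3 v)
      simp only [Submodule.coe_sum, Submodule.coe_smul, Submodule.coe_zero] at h5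
      rw [Matrix.mul_apply, Matrix.zero_apply]
      have h6 : (∑ w, X v w • colv C w) k = ∑ w, X v w * C k w := by
        rw [WithLp.ofLp_sum, Finset.sum_apply]
        rfl
      rw [h6] at h5
      rw [show ((0 : EuclideanSpace ℝ V) k) = 0 from rfl] at h5
      rw [← h5]
      refine Finset.sum_congr rfl fun w _ => ?_
      rw [Matrix.of_apply, h1 w v, mul_comm]
    have h7 : A * (Matrix.of X) = 0 := by
      rw [hC, Matrix.mul_assoc, h4, Matrix.mul_zero]
    have h8 := hR (Matrix.of X) (by ext i j; exact h1 j i) h2 h7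
    intro v w
    exact congrFun (congrFun h8 v) w

/-- Exact pattern and the strong Arnold property for one more dimension. -/
theorem nul_of_psd {G : SimpleGraph V} {A : Matrix V V ℝ} (hA : A.PosSemidef)
    (hS : ∀ i j, i ≠ j → ¬ G.Adj i j → A i j = 0)
    (hR : ∀ X : Matrix V V ℝ, X.IsSymm → (∀ i, X i i = 0) → (∀ i j, G.Adj i j → X i j = 0) →
      A * X = 0 → X = 0) : Nul G (Fintype.card V - (A.rank + 1)) := by
  classical
  have h1 : Rep Gᶜ.Adj A.rank := by
    refine rep_of_psd hA ?_ ?_
    · intro i j hij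
      rw [SimpleGraph.compl_adj] at hij
      exact hS i j hij.1 hij.2
    · intro X h1 h2 h3
      refine hR X h1 ?_ ?_ h3
      · intro i
        exact h2 i i (fun h => h.ne rfl)
      · intro i j hij
        exact h2 i j (fun h => ((SimpleGraph.compl_adj _ _ _).1 h).2 hij)
  obtain ⟨A', hA1, hA2, hA3, hA4⟩ := exists_matrix_of_rep Gᶜ h1
  rw [compl_compl] at hA2 hA3
  exact ⟨A', hA1, hA2, hA3, by omega⟩

/-- The sum of the nullities. -/
theorem exists_nul_sum {G : SimpleGraph V} {A B : Matrix V V ℝ} {c : ℕ} (hA : A.PosSemidef)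
    (hB : B.PosSemidef) (hA0 : ∀ i j, i ≠ j → ¬ G.Adj i j → A i j = 0)
    (hB0 : ∀ i j, G.Adj i j → B i j = 0)
    (hAR : ∀ X : Matrix V V ℝ, X.IsSymm → (∀ i, X i i = 0) → (∀ i j, G.Adj i j → X i j = 0) →
      A * X = 0 → X = 0)
    (hBR : ∀ X : Matrix V V ℝ, X.IsSymm → (∀ i, X i i = 0) →
      (∀ i j, i ≠ j → ¬ G.Adj i j → X i j = 0) → B * X = 0 → X = 0)
    (hrank : A.rank + B.rank ≤ Fintype.card V + c) :
    ∃ x y, Nul G x ∧ Nul Gᶜ y ∧ Fintype.card V ≤ x + y + c + 2 := by
  classical
  refine ⟨_, _, nul_of_psd hA hA0 hAR, nul_of_psd (G := Gᶜ) hB ?_ ?_, ?_⟩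
  · intro i j hij h
    refine hB0 i j ?_
    by_contra h'
    exact h ((SimpleGraph.compl_adj _ _ _).2 ⟨hij, h'⟩)
  · intro X h1 h2 h3 h4
    refine hBR X h1 h2 ?_ h4
    intro i j hij h
    exact h3 i j ((SimpleGraph.compl_adj _ _ _).2 ⟨hij, h⟩)
  · have h1 := A.rank_le_card_width
    have h2 := B.rank_le_card_width
    omega

end

end Pool.Agent.Lib.MP_23961f_co.SDP
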